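import Pool.Agent.Helper2.SV.GoalsP

/-!
# Project SV, packet COB: the union of two cliques is perfect
-/

set_option autoImplicit false

namespace Pool.Agent.Helper55.SV

open Pool.Agent.Helper2.SV

theorem goalCOB : G_COB := by
  classical
  intro V _ G C1 C2 h1 h2 X hX n hn
  have instV : Fintype V := Fintype.ofFinite V
  obtain ⟨P, hP⟩ : ∃ P : Finset V, ∀ x, x ∈ P ↔ (x ∈ X ∧ x ∈ C1) :=
    ⟨Finset.univ.filter (fun x => x ∈ X ∧ x ∈ C1), by intro x; simp⟩
  obtain ⟨R, hR⟩ : ∃ R : Finset V, ∀ x, x ∈ R ↔ (x ∈ X ∧ x ∉ C1) :=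
    ⟨Finset.univ.filter (fun x => x ∈ X ∧ x ∉ C1), by intro x; simp⟩
  have hR2 : ∀ x ∈ R, x ∈ C2 := by
    intro x hx
    rcases hX ((hR x).1 hx).1 with h | h
    · exact absurd h ((hR x).1 hx).2
    · exact h
  have hPn : P.card ≤ n := by
    apply hn P
    · intro x hx
      exact ((hP x).1 (Finset.mem_coe.1 hx)).1
    · intro x hx y hy hxy
      exact h1 x ((hP x).1 (Finset.mem_coe.1 hx)).2 y ((hP y).1 (Finset.mem_coe.1 hy)).2 hxy
  obtain ⟨f, f_lt, f_inj⟩ : ∃ f : V → ℕ, (∀ x ∈ P, f x < n) ∧
      ∀ x ∈ P, ∀ y ∈ P, f x = f y → x = y := by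
    refine ⟨fun x => if h : x ∈ P then (P.equivFin ⟨x, h⟩ : ℕ) else 0, ?_, ?_⟩
    · intro x hx
      simp only [hx, dif_pos]
      exact lt_of_lt_of_le (P.equivFin ⟨x, hx⟩).2 hPn
    · intro x hx y hy hxy
      simp only [hx, hy, dif_pos] at hxy
      have := P.equivFin.injective (Fin.ext hxy)
      exact congrArg Subtype.val this
  let t : {x // x ∈ R} → Finset ℕ := fun r =>
    Finset.range n \ (P.filter fun p => G.Adj p r.1).image f
  have hall : ∀ s : Finset {x // x ∈ R}, s.card ≤ (s.biUnion t).card := by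
    intro s
    rcases s.eq_empty_or_nonempty with rfl | ⟨r0, hr0⟩
    · simp
    let R' : Finset V := s.image Subtype.val
    have hR'c : R'.card = s.card := Finset.card_image_of_injective _ Subtype.val_injective
    have hR'R : ∀ x ∈ R', x ∈ R := by
      intro x hx
      obtain ⟨r, _, rfl⟩ := Finset.mem_image.1 hx
      exact r.2
    let C : Finset V := P.filter fun p => ∀ r ∈ R', G.Adj p r
    have hdis : Disjoint R' C := by
      rw [Finset.disjoint_left]
      intro x hx hx2
      exact ((hR x).1 (hR'R x hx)).2 ((hP x).1 (Finset.mem_filter.1 hx2).1).2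
    have hK : R'.card + C.card ≤ n := by
      rw [← Finset.card_union_of_disjoint hdis]
      apply hn (R' ∪ C)
      · intro x hx
        rcases Finset.mem_union.1 (Finset.mem_coe.1 hx) with h | h
        · exact ((hR x).1 (hR'R x h)).1
        · exact ((hP x).1 (Finset.mem_filter.1 h).1).1
      · intro x hx y hy hxy
        rcases Finset.mem_union.1 (Finset.mem_coe.1 hx) with h | h <;>
        rcases Finset.mem_union.1 (Finset.mem_coe.1 hy) with h' | h'
        · exact h2 x (hR2 x (hR'R x h)) y (hR2 y (hR'R y h')) hxy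
        · exact ((Finset.mem_filter.1 h').2 x h).symm
        · exact (Finset.mem_filter.1 h).2 y h'
        · exact h1 x ((hP x).1 (Finset.mem_filter.1 h).1).2 y
            ((hP y).1 (Finset.mem_filter.1 h').1).2 hxy
    have hsub : Finset.range n \ C.image f ⊆ s.biUnion t := by
      intro k hk
      rw [Finset.mem_sdiff] at hk
      rw [Finset.mem_biUnion]
      by_cases hkP : ∃ p ∈ P, f p = k
      · obtain ⟨p, hp, rfl⟩ := hkP
        have hpC : p ∉ C := fun h => hk.2 (Finset.mem_image_of_mem f h)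
        have : ∃ r ∈ R', ¬ G.Adj p r := by
          by_contra hcon
          push Not at hcon
          exact hpC (Finset.mem_filter.2 ⟨hp, hcon⟩)
        obtain ⟨r, hr, hpr⟩ := this
        obtain ⟨r1, hr1, rfl⟩ := Finset.mem_image.1 hr
        refine ⟨r1, hr1, Finset.mem_sdiff.2 ⟨hk.1, ?_⟩⟩
        intro hmem
        obtain ⟨p', hp', he⟩ := Finset.mem_image.1 hmem
        have := f_inj p' (Finset.mem_filter.1 hp').1 p hp he
        subst this
        exact hpr (Finset.mem_filter.1 hp').2
      · refine ⟨r0, hr0, Finset.mem_sdiff.2 ⟨hk.1, ?_⟩⟩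
        intro hmem
        obtain ⟨p', hp', he⟩ := Finset.mem_image.1 hmem
        exact hkP ⟨p', (Finset.mem_filter.1 hp').1, he⟩
    have hc1 : (Finset.range n \ C.image f).card ≥ n - C.card := by
      have h3 := Finset.le_card_sdiff (C.image f) (Finset.range n)
      have h4 : (C.image f).card ≤ C.card := Finset.card_image_le
      rw [Finset.card_range] at h3
      omega
    have hc2 := Finset.card_le_card hsub
    omega
  obtain ⟨g, g_inj, g_mem⟩ := (Finset.all_card_le_biUnion_card_iff_exists_injective t).1 hall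
  refine ⟨fun x => if h : x ∈ R then g ⟨x, h⟩ else f x, ?_, ?_⟩
  · intro x hx
    by_cases h : x ∈ R
    · simp only [h, dif_pos]
      exact Finset.mem_range.1 (Finset.mem_sdiff.1 (g_mem ⟨x, h⟩)).1
    · simp only [h, dif_neg, not_false_iff]
      apply f_lt
      rw [hP]
      refine ⟨hx, ?_⟩
      by_contra hc
      exact h ((hR x).2 ⟨hx, hc⟩)
  · have key : ∀ x ∈ X, x ∉ R → x ∈ P := by
      intro x hx h
      rw [hP]
      refine ⟨hx, ?_⟩
      by_contra hc
      exact h ((hR x).2 ⟨hx, hc⟩)
    have cross : ∀ x (hx : x ∈ R), ∀ y ∈ P, G.Adj y x → g ⟨x, hx⟩ ≠ f y := by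
      intro x hx y hy hyx he
      have := (Finset.mem_sdiff.1 (g_mem ⟨x, hx⟩)).2
      rw [he] at this
      exact this (Finset.mem_image_of_mem f (Finset.mem_filter.2 ⟨hy, hyx⟩))
    intro x hx y hy hxy
    by_cases h : x ∈ R <;> by_cases h' : y ∈ R
    · simp only [h, h', dif_pos]
      intro he
      have := g_inj he
      exact hxy.ne (congrArg Subtype.val this)
    · simp only [h, h', dif_pos, dif_neg, not_false_iff]
      exact cross x h y (key y hy h') hxy.symm
    · simp only [h, h', dif_pos, dif_neg, not_false_iff]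
      exact (cross y h' x (key x hx h) hxy).symm
    · simp only [h, h', dif_neg, not_false_iff]
      intro he
      exact hxy.ne (f_inj x (key x hx h) y (key y hy h') he)

end Pool.Agent.Helper55.SV
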